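import Pool.Agent.Helper21.EM.Stmts3

/-!
# T33, row FINA: the Mumford-Tate group
-/

set_option autoImplicit false

open NumberField MU MT MR HD

namespace EM

theorem st_FINA (hHCO : ST_HCO) (hHCM : ST_HCM) (hHTR : ST_HTR) : ST_FINA := by
  intro F _ _ n w h M hw hEnd hGood
  -- the commutant
  obtain ⟨hC, hHodge⟩ := hHCM F n w h M.toRMot hw
  have hmot : ∀ X, X ∈ Cmt (mlie M.toRMot) ↔ mtx X ∈ M.mot 1 1 := by
    intro X
    rw [hC]
    refine ⟨fun hX => hEnd X hX, fun hX => (hHodge X).2 fun z => M.mot_hodge 1 1 _ hX z⟩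
  -- the Lie algebra
  obtain ⟨a, ha, hbrk, hsim, hmem⟩ := MR.st_HLA F n w h M.toRMot
  have hae : a = mlie M.toRMot := by
    ext A
    rw [ha, MR.mem_mlie]
  subst hae
  have hσ : ∀ x y : F, M.σ₀ x = M.σ₀ y ↔ x = y := fun x y => M.σ₀.injective.eq_iff
  have key := hHCO n w h M.ψ (mlie M.toRMot) M.hodge (fun X j => M.σ₀ (M.e X j)) hw
    (MR.st_HSM F n w h M.toRMot) M.ψ_det M.ψ_sym hbrk hsim (hHTR F n w h M.toRMot hw) hmem
    (fun X hX => M.hodge_e X ((hmot X).1 hX)) (by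
      intro k
      obtain ⟨k', h1, h2⟩ := hGood k
      refine ⟨k', ?_, ?_⟩
      · intro X hX
        rw [map_eq_zero, map_eq_zero]
        exact h1 X ((hmot X).1 hX)
      · have e1 : (fun j => ∀ X ∈ Cmt (mlie M.toRMot), M.σ₀ (M.e X j) = M.σ₀ (M.e X k')) =
            fun j => ∀ X, mtx X ∈ M.mot 1 1 → M.e X j = M.e X k' := by
          funext j
          apply propext
          refine forall_congr' fun X => ?_
          rw [hmot, hσ]
        have e2 : (∀ X ∈ Cmt (mlie M.toRMot), M.σ₀ (M.e (adj M.ψ X) k') = M.σ₀ (M.e X k')) =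
            ∀ X, mtx X ∈ M.mot 1 1 → M.e (adj M.ψ X) k' = M.e X k' := by
          apply propext
          refine forall_congr' fun X => ?_
          rw [hmot, hσ]
        change GoodAt w h (fun j => ∀ X ∈ Cmt (mlie M.toRMot), M.σ₀ (M.e X j) =
          M.σ₀ (M.e X k')) (∀ X ∈ Cmt (mlie M.toRMot), M.σ₀ (M.e (adj M.ψ X) k') =
            M.σ₀ (M.e X k')) k'
        rw [e1, e2]
        exact h2)
  have hLef : Lef M.ψ (mlie M.toRMot) = LefE M.ψ (HodgeEnd M.toRMot) := by
    ext A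
    constructor
    · rintro ⟨h1, h2⟩
      exact ⟨h1, fun X hX => h2 X (by rw [hC]; exact hX)⟩
    · rintro ⟨h1, h2⟩
      exact ⟨h1, fun X hX => h2 X (by rw [← hC]; exact hX)⟩
  rw [hLef, hC] at key
  exact ⟨key.1, fun hR => key.2 hR⟩

end EM
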